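import Pool.Agent.MP_ca1109_lc.Xv.LF
import Pool.Agent.MP_ca1109_lc.Xa.MA3

/-!
# The part of low degree is free: products of characters, of a function of heavy terms and of phases
-/

namespace Pool.Agent.MP_ca1109_lc.Xv

open Finset Pool.Agent.H66 Pool.Agent.MP_ca1109_lc.Mpg Pool.Agent.MP_ca1109_lc.Agp
open Pool.Agent.MP_ca1109_lc.Dnf (Cube Term)
open Pool.Agent.MP_ca1109_lc.Xl (Tr pr Rd wb)
open Pool.Agent.MP_ca1109_lc.Xg (hx)
open Pool.Agent.MP_ca1109_lc.Xa (hx_mem)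

variable {n : ℕ}

/-- The term on the same variables which is true at `x` iff `t` is true at `x + s`. -/
def ysh (t : Term n) (s : Fin n → Bool) : Term n := ⟨t.S, fun i => xor (t.a i) (s i)⟩

theorem ysh_tr (t : Term n) (s x : Fin n → Bool) :
    Tr (ysh t s).S (ysh t s).a x ↔ Tr t.S t.a (xr x s) := by
  unfold Tr ysh xr
  refine forall₂_congr fun i _ => ?_
  show x i = xor (t.a i) (s i) ↔ xor (x i) (s i) = t.a i
  generalize x i = u
  generalize t.a i = v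
  generalize s i = w
  revert u v w
  decide

/-- The two shifted copies. -/
def ydb {ι : Type} (T : ι → Term n) (s t : Fin n → Bool) : ι ⊕ ι → Term n :=
  Sum.elim (fun m => ysh (T m) s) fun m => ysh (T m) t

/-- The two copies of the coefficients. -/
noncomputable def ycj {ι : Type} (ζ : ι → ℂ) : ι ⊕ ι → ℂ :=
  Sum.elim ζ fun m => (starRingEnd ℂ) (ζ m)

theorem ydb_pr {ι : Type} [Fintype ι] (T : ι → Term n) (ζ : ι → ℂ) (s t x : Fin n → Bool) :
    pr (ydb T s t) (ycj ζ) univ x =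
      pr T ζ univ (xr x s) * (starRingEnd ℂ) (pr T ζ univ (xr x t)) := by
  classical
  unfold pr
  rw [Fintype.prod_sum_type, map_prod]
  congr 1
  · refine Finset.prod_congr rfl fun m _ => ?_
    by_cases h : Tr (T m).S (T m).a (xr x s)
    · rw [if_pos h, if_pos]
      · rfl
      · exact (ysh_tr (T m) s x).2 h
    · rw [if_neg h, if_neg]
      exact fun h' => h ((ysh_tr (T m) s x).1 h')
  · refine Finset.prod_congr rfl fun m _ => ?_
    by_cases h : Tr (T m).S (T m).a (xr x t)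
    · rw [if_pos h, if_pos]
      · rfl
      · exact (ysh_tr (T m) t x).2 h
    · rw [if_neg h, map_one, if_neg]
      exact fun h' => h ((ysh_tr (T m) t x).1 h')

theorem ydb_rd {ι : Type} [Fintype ι] {T : ι → Term n} {r w : ℕ}
    (h : Rd r T (univ.filter fun m => (T m).S.card ≤ w)) (s t : Fin n → Bool) :
    Rd (2 * r) (ydb T s t) (univ.filter fun m => (ydb T s t m).S.card ≤ w) := by
  classical
  intro i
  rw [Finset.filter_filter]
  have h1 : (univ.filter fun m : ι ⊕ ι => (ydb T s t m).S.card ≤ w ∧ i ∈ (ydb T s t m).S) =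
      ((univ.filter fun m : ι => (T m).S.card ≤ w ∧ i ∈ (T m).S).map ⟨Sum.inl, Sum.inl_injective⟩) ∪
      ((univ.filter fun m : ι => (T m).S.card ≤ w ∧ i ∈ (T m).S).map
        ⟨Sum.inr, Sum.inr_injective⟩) := by
    ext m
    rw [mem_filter]
    rcases m with m | m
    · simp [ydb, ysh]
    · simp [ydb, ysh]
  rw [h1]
  refine (Finset.card_union_le _ _).trans ?_
  rw [Finset.card_map, Finset.card_map]
  have h2 := h i
  rw [Finset.filter_filter] at h2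
  omega

theorem ydb_sum {ι : Type} [Fintype ι] (T : ι → Term n) (ξ : ι → ℂ) (s t : Fin n → Bool) :
    ∑ m, (1 / 2 : ℝ) ^ (ydb T s t m).S.card * ‖1 - ycj ξ m‖ ^ 2 =
      2 * ∑ m, (1 / 2 : ℝ) ^ (T m).S.card * ‖1 - ξ m‖ ^ 2 := by
  rw [Fintype.sum_sum_type, two_mul]
  congr 1
  refine Finset.sum_congr rfl fun m _ => ?_
  show (1 / 2 : ℝ) ^ (T m).S.card * ‖1 - (starRingEnd ℂ) (ξ m)‖ ^ 2 = _
  have h : (1 : ℂ) - (starRingEnd ℂ) (ξ m) = (starRingEnd ℂ) (1 - ξ m) := by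
    rw [map_sub, map_one]
  rw [h, RCLike.norm_conj]

theorem ydb_mass {ι : Type} [Fintype ι] (T : ι → Term n) (s t : Fin n → Bool) :
    ∑ m, (1 / 2 : ℝ) ^ (ydb T s t m).S.card = 2 * ∑ m, (1 / 2 : ℝ) ^ (T m).S.card := by
  rw [Fintype.sum_sum_type, two_mul]
  rfl

open Classical in
/-- The function of the two copies of the true heavy terms. -/
noncomputable def yps {μ : Type} [Fintype μ] (ψ : Finset μ → ℂ) (A : Finset (μ ⊕ μ)) : ℂ :=
  ψ (univ.filter fun m => Sum.inl m ∈ A) *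
    (starRingEnd ℂ) (ψ (univ.filter fun m => Sum.inr m ∈ A))

theorem yps_norm {μ : Type} [Fintype μ] {ψ : Finset μ → ℂ} (h : ∀ A, ‖ψ A‖ ≤ 1)
    (A : Finset (μ ⊕ μ)) : ‖yps ψ A‖ ≤ 1 := by
  unfold yps
  rw [norm_mul, RCLike.norm_conj]
  exact mul_le_one₀ (h _) (norm_nonneg _) (h _)

theorem yps_hx {μ : Type} [Fintype μ] (U : μ → Term n) (ψ : Finset μ → ℂ)
    (s t x : Fin n → Bool) :
    yps ψ (hx univ (ydb U s t) x) =
      ψ (hx univ U (xr x s)) * (starRingEnd ℂ) (ψ (hx univ U (xr x t))) := by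
  classical
  unfold yps
  have h1 : (univ.filter fun m : μ => Sum.inl m ∈ hx univ (ydb U s t) x) =
      hx univ U (xr x s) := by
    ext m
    rw [mem_filter, hx_mem, hx_mem]
    have h2 : Tr (ydb U s t (Sum.inl m)).S (ydb U s t (Sum.inl m)).a x ↔
        Tr (U m).S (U m).a (xr x s) := ysh_tr (U m) s x
    rw [h2]
    exact ⟨fun h => ⟨mem_univ _, h.2.2⟩, fun h => ⟨mem_univ _, mem_univ _, h.2⟩⟩
  have h3 : (univ.filter fun m : μ => Sum.inr m ∈ hx univ (ydb U s t) x) =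
      hx univ U (xr x t) := by
    ext m
    rw [mem_filter, hx_mem, hx_mem]
    have h2 : Tr (ydb U s t (Sum.inr m)).S (ydb U s t (Sum.inr m)).a x ↔
        Tr (U m).S (U m).a (xr x t) := ysh_tr (U m) t x
    rw [h2]
    exact ⟨fun h => ⟨mem_univ _, h.2.2⟩, fun h => ⟨mem_univ _, mem_univ _, h.2⟩⟩
  rw [h1, h3]

/-- Products of characters, of a function of heavy terms and of phases of bounded energy. -/
def BPy (q r b : ℕ) (K V : ℝ) (i n : ℕ) : Set ((Fin n → Bool) → ℂ) :=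
  {f | ∃ (ι κ μ : Type) (_ : Fintype ι) (_ : Fintype κ) (_ : Fintype μ) (T : ι → Term n)
    (ζ : ι → ℂ) (T' : κ → Term n) (ξ : κ → ℂ) (U : μ → Term n) (ψ : Finset μ → ℂ),
    (Fintype.card ι ≤ 2 ^ i * n ^ b ∧
      Rd (2 ^ i * r) T (univ.filter fun m => (T m).S.card ≤ wb (b + 1) n) ∧ ∀ m, ζ m ^ q = 1) ∧
    (Fintype.card κ ≤ 2 ^ i * n ^ b ∧
      Rd (2 ^ i * r) T' (univ.filter fun m => (T' m).S.card ≤ wb (b + 1) n) ∧
      (∀ m, ‖ξ m‖ = 1) ∧ ∑ m, (1 / 2 : ℝ) ^ (T' m).S.card * ‖1 - ξ m‖ ^ 2 ≤ 2 ^ i * V) ∧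
    (Fintype.card μ ≤ 2 ^ i * n ^ b ∧
      Rd (2 ^ i * r) U (univ.filter fun m => (U m).S.card ≤ wb (b + 1) n) ∧
      ∑ m, (1 / 2 : ℝ) ^ (U m).S.card ≤ 2 ^ i * K ∧ ∀ A, ‖ψ A‖ ≤ 1) ∧
    f = fun x => pr T ζ univ x * (ψ (hx univ U x) * pr T' ξ univ x)}

theorem bpy_chain {q r b : ℕ} (hq : 0 < q) {K V : ℝ} : Chain (BPy q r b K V) := by
  classical
  constructor
  · rintro i n f ⟨ι, κ, μ, _, _, _, T, ζ, T', ξ, U, ψ, ⟨-, -, h1⟩, ⟨-, -, h2, -⟩,
      ⟨-, -, -, h3⟩, rfl⟩ x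
    show ‖pr T ζ univ x * (ψ (hx univ U x) * pr T' ξ univ x)‖ ≤ 1
    rw [norm_mul, norm_mul,
      Xl.ml_norm_pr (fun m _ => Complex.norm_eq_one_of_pow_eq_one (h1 m) hq.ne'),
      Xl.ml_norm_pr (fun m _ => h2 m), one_mul, mul_one]
    exact h3 _
  · rintro i n f ⟨ι, κ, μ, _, _, _, T, ζ, T', ξ, U, ψ, ⟨a1, a2, a3⟩, ⟨b1, b2, b3, b4⟩,
      ⟨c1, c2, c3, c4⟩, rfl⟩ s t
    refine ⟨ι ⊕ ι, κ ⊕ κ, μ ⊕ μ, inferInstance, inferInstance, inferInstance, ydb T s t, ycj ζ,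
      ydb T' s t, ycj ξ, ydb U s t, yps ψ, ⟨?_, ?_, ?_⟩, ⟨?_, ?_, ?_, ?_⟩, ⟨?_, ?_, ?_, ?_⟩, ?_⟩
    · rw [Fintype.card_sum, pow_succ]
      calc Fintype.card ι + Fintype.card ι ≤ 2 ^ i * n ^ b + 2 ^ i * n ^ b := add_le_add a1 a1
        _ = 2 ^ i * 2 * n ^ b := by ring
    · have h := ydb_rd a2 s t
      have h2 : 2 * (2 ^ i * r) = 2 ^ (i + 1) * r := by ring
      rwa [h2] at h
    · rintro (m | m)
      · exact a3 m
      · show ((starRingEnd ℂ) (ζ m)) ^ q = 1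
        rw [← map_pow, a3 m, map_one]
    · rw [Fintype.card_sum, pow_succ]
      calc Fintype.card κ + Fintype.card κ ≤ 2 ^ i * n ^ b + 2 ^ i * n ^ b := add_le_add b1 b1
        _ = 2 ^ i * 2 * n ^ b := by ring
    · have h := ydb_rd b2 s t
      have h2 : 2 * (2 ^ i * r) = 2 ^ (i + 1) * r := by ring
      rwa [h2] at h
    · rintro (m | m)
      · exact b3 m
      · show ‖(starRingEnd ℂ) (ξ m)‖ = 1
        rw [RCLike.norm_conj]
        exact b3 m
    · rw [ydb_sum, pow_succ]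
      calc 2 * ∑ m, (1 / 2 : ℝ) ^ (T' m).S.card * ‖1 - ξ m‖ ^ 2 ≤ 2 * (2 ^ i * V) := by linarith
        _ = 2 ^ i * 2 * V := by ring
    · rw [Fintype.card_sum, pow_succ]
      calc Fintype.card μ + Fintype.card μ ≤ 2 ^ i * n ^ b + 2 ^ i * n ^ b := add_le_add c1 c1
        _ = 2 ^ i * 2 * n ^ b := by ring
    · have h := ydb_rd c2 s t
      have h2 : 2 * (2 ^ i * r) = 2 ^ (i + 1) * r := by ring
      rwa [h2] at h
    · rw [ydb_mass, pow_succ]
      calc 2 * ∑ m, (1 / 2 : ℝ) ^ (U m).S.card ≤ 2 * (2 ^ i * K) := by linarith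
        _ = 2 ^ i * 2 * K := by ring
    · exact yps_norm c4
    · funext x
      show pr T ζ univ (xr x s) * (ψ (hx univ U (xr x s)) * pr T' ξ univ (xr x s)) *
        (starRingEnd ℂ) (pr T ζ univ (xr x t) *
          (ψ (hx univ U (xr x t)) * pr T' ξ univ (xr x t))) = _
      rw [ydb_pr, ydb_pr, yps_hx, map_mul, map_mul]
      ring

theorem bpy_fooled (q r b : ℕ) (hq : 0 < q) (K V : ℝ) (i : ℕ) {ε : ℝ} (hε : 0 < ε) :
    Fooled (BPy q r b K V i) ε := by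
  classical
  obtain ⟨E, G, hG, n₀, H⟩ := Xa.gxp (2 ^ i * r) q (b + 1) hq (2 ^ i * K) (2 ^ i * V) hε
  refine ⟨E, G, hG, max n₀ (2 ^ i), ?_⟩
  rintro n hn f ⟨ι, κ, μ, _, _, _, T, ζ, T', ξ, U, ψ, ⟨a1, a2, a3⟩, ⟨b1, b2, b3, b4⟩,
    ⟨c1, c2, c3, c4⟩, rfl⟩
  have h1 : 2 ^ i * n ^ b ≤ n ^ (b + 1) := by
    rw [pow_succ, mul_comm (n ^ b) n]
    exact Nat.mul_le_mul_right _ ((le_max_right _ _).trans hn)
  have h2 := H n ((le_max_left _ _).trans hn) T univ ζ T' univ ξ U univ ψ a2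
    (by rw [Finset.card_univ]; exact a1.trans h1) (fun m _ => a3 m) b2
    (by rw [Finset.card_univ]; exact b1.trans h1) (fun m _ => b3 m) b4 c2
    (by rw [Finset.card_univ]; exact c1.trans h1) c3 c4
  exact h2

theorem ypr_coe {ι : Type} (T : ι → Term n) (ζ : ι → ℂ) (M : Finset ι) (x : Fin n → Bool) :
    pr T ζ M x = pr (fun m : M => T m) (fun m : M => ζ m) univ x := by
  classical
  unfold pr
  exact (Finset.prod_coe_sort M fun m => if Tr (T m).S (T m).a x then ζ m else 1).symm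

theorem yrd_coe {ι : Type} {T : ι → Term n} {M : Finset ι} {r w : ℕ}
    (h : Rd r T (M.filter fun m => (T m).S.card ≤ w)) :
    Rd r (fun m : M => T m) (univ.filter fun m : M => (T m).S.card ≤ w) := by
  classical
  intro i
  refine le_trans ?_ (h i)
  refine Finset.card_le_card_of_injOn Subtype.val ?_ fun a _ b _ hab => Subtype.ext hab
  intro m hm
  simp only [Finset.coe_filter, Finset.mem_filter, Finset.mem_univ, true_and,
    Set.mem_ofPred_eq] at hm ⊢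
  exact ⟨⟨m.2, hm.1⟩, hm.2⟩

theorem yhx_coe {μ : Type} (U : μ → Term n) (H : Finset μ) (x : Fin n → Bool) :
    (hx univ (fun m : H => U m) x).map (Function.Embedding.subtype _) = hx H U x := by
  classical
  ext m
  rw [mem_map, hx_mem]
  constructor
  · rintro ⟨j, hj, rfl⟩
    rw [hx_mem] at hj
    exact ⟨j.2, hj.2⟩
  · rintro ⟨h1, h2⟩
    exact ⟨⟨m, h1⟩, hx_mem.2 ⟨mem_univ _, h2⟩, rfl⟩

/-- The generator fools products of a phase of low degree modulo `2 ^ a`, of a character of a sum of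
terms of bounded read, of a function of the true heavy terms and of a phase of bounded energy. -/
theorem main_gp (r q b a d : ℕ) (hq : 0 < q) (K V : ℝ) {ε : ℝ} (hε : 0 < ε) :
    ∃ E G, NG E G ∧
    ∃ n₀ : ℕ, ∀ n ≥ n₀, ∀ A ∈ lowDeg (Fin n) Bool (ZMod (2 ^ a)) d,
      ∀ {ι κ μ : Type} [DecidableEq ι] [DecidableEq κ] [DecidableEq μ]
      (T : ι → Term n) (M : Finset ι) (ζ : ι → ℂ) (T' : κ → Term n) (M' : Finset κ) (ζ' : κ → ℂ)
      (U : μ → Term n) (H : Finset μ) (ψ : Finset μ → ℂ),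
      Rd r T (M.filter fun m => (T m).S.card ≤ wb (b + 1) n) → M.card ≤ n ^ b →
      (∀ m ∈ M, ζ m ^ q = 1) →
      Rd r T' (M'.filter fun m => (T' m).S.card ≤ wb (b + 1) n) → M'.card ≤ n ^ b →
      (∀ m ∈ M', ‖ζ' m‖ = 1) →
      ∑ m ∈ M', (1 / 2 : ℝ) ^ (T' m).S.card * ‖1 - ζ' m‖ ^ 2 ≤ V →
      Rd r U (H.filter fun m => (U m).S.card ≤ wb (b + 1) n) → H.card ≤ n ^ b →
      ∑ m ∈ H, (1 / 2 : ℝ) ^ (U m).S.card ≤ K → (∀ A, ‖ψ A‖ ≤ 1) →
      ‖na (2 ^ E n) (fun p => ph (2 ^ a) (A (out G n p)) *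
          (pr T ζ M (out G n p) * (ψ (hx H U (out G n p)) * pr T' ζ' M' (out G n p)))) -
        av fun x => ph (2 ^ a) (A x) * (pr T ζ M x * (ψ (hx H U x) * pr T' ζ' M' x))‖ ≤ ε := by
  classical
  obtain ⟨E, G, hG, n₀, H'⟩ := low_free (bpy_chain hq (r := r) (b := b) (K := K) (V := V))
    (fun i ε hε => bpy_fooled q r b hq K V i hε) 0 a d hε
  refine ⟨E, G, hG, n₀, ?_⟩
  intro n hn A hA ι κ μ _ _ _ T M ζ T' M' ζ' U H ψ a1 a2 a3 b1 b2 b3 b4 c1 c2 c3 c4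
  have hg : (fun x => pr T ζ M x * (ψ (hx H U x) * pr T' ζ' M' x)) ∈ BPy q r b K V 0 n := by
    refine ⟨M, M', H, inferInstance, inferInstance, inferInstance, fun m => T m, fun m => ζ m,
      fun m => T' m, fun m => ζ' m, fun m => U m,
      fun A => ψ (A.map (Function.Embedding.subtype _)), ⟨?_, ?_, fun m => a3 m m.2⟩,
      ⟨?_, ?_, fun m => b3 m m.2, ?_⟩, ⟨?_, ?_, ?_, fun A => c4 _⟩, ?_⟩
    · rw [Fintype.card_coe, pow_zero, one_mul]
      exact a2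
    · rw [pow_zero, one_mul]
      exact yrd_coe a1
    · rw [Fintype.card_coe, pow_zero, one_mul]
      exact b2
    · rw [pow_zero, one_mul]
      exact yrd_coe b1
    · rw [pow_zero, one_mul]
      refine le_trans (le_of_eq ?_) b4
      exact Finset.sum_coe_sort M' fun m => (1 / 2 : ℝ) ^ (T' m).S.card * ‖1 - ζ' m‖ ^ 2
    · rw [Fintype.card_coe, pow_zero, one_mul]
      exact c2
    · rw [pow_zero, one_mul]
      exact yrd_coe c1
    · rw [pow_zero, one_mul]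
      refine le_trans (le_of_eq ?_) c3
      exact Finset.sum_coe_sort H fun m => (1 / 2 : ℝ) ^ (U m).S.card
    · funext x
      rw [ypr_coe T ζ M x, ypr_coe T' ζ' M' x, ← yhx_coe U H x]
  have hm : (fun x => ph (2 ^ a) (A x) * (pr T ζ M x * (ψ (hx H U x) * pr T' ζ' M' x))) ∈
      (fun n => {f : (Fin n → Bool) → ℂ | ∃ A ∈ lowDeg (Fin n) Bool (ZMod (2 ^ a)) d,
        ∃ g ∈ BPy q r b K V 0 n, f = fun x => ph (2 ^ a) (A x) * g x}) n :=
    ⟨A, hA, _, hg, rfl⟩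
  have h := H' n hn (fun x => ph (2 ^ a) (A x) *
    (pr T ζ M x * (ψ (hx H U x) * pr T' ζ' M' x))) hm
  exact h

end Pool.Agent.MP_ca1109_lc.Xv
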