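import Pool.Agent.MP_ca1109_lc.Mpg.E2
import Pool.Agent.MP_ca1109_lc.Mpg.D4
import Pool.Agent.MP_ca1109_lc.Mpg.C2
import Pool.Agent.MP_ca1109_lc.Agp.G3
import Pool.Agent.MP_ca1109_lc.Agp.N1

/-!
# The part of low degree is free

If a sequence of classes of functions of modulus at most one is closed under multiplicative
derivatives and can be fooled, then so can be the products of its members and of phases of sums of
functions of at most `d` bits modulo a power of two (Viola's step).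
-/

namespace Pool.Agent.MP_ca1109_lc.Xv

open Finset Pool.Agent.H66 Pool.Agent.MP_ca1109_lc.Mpg Pool.Agent.MP_ca1109_lc.Agp

variable {n : ℕ}

/-- Bits as a group. -/
abbrev Hn (n : ℕ) := Fin n → ZMod 2

/-- From the group to bits. -/
def bb (z : Hn n) : Fin n → Bool := fun i => decide (z i = 1)

/-- From bits to the group. -/
def aa (x : Fin n → Bool) : Hn n := fun i => if x i = true then 1 else 0

/-- Addition of bits modulo two. -/
def xr (x s : Fin n → Bool) : Fin n → Bool := fun i => xor (x i) (s i)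

theorem bb_aa (x : Fin n → Bool) : bb (aa x) = x := by
  funext i
  unfold bb aa
  cases x i <;> simp

theorem aa_bb (z : Hn n) : aa (bb z) = z := by
  funext i
  show (if decide (z i = 1) = true then (1 : ZMod 2) else 0) = z i
  generalize z i = w
  revert w
  decide

theorem bb_add (z s : Hn n) : bb (z + s) = xr (bb z) (bb s) := by
  funext i
  show decide (z i + s i = 1) = xor (decide (z i = 1)) (decide (s i = 1))
  generalize z i = w
  generalize s i = v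
  revert w v
  decide

theorem aa_xr (x s : Fin n → Bool) : aa (xr x s) = aa x + aa s := by
  rw [← aa_bb (aa x + aa s), bb_add, bb_aa, bb_aa]

/-- The bijection. -/
def bbE (n : ℕ) : Hn n ≃ (Fin n → Bool) := ⟨bb, aa, aa_bb, bb_aa⟩

theorem av_bb (f : (Fin n → Bool) → ℂ) : av (fun z : Hn n => f (bb z)) = av f :=
  e2_av_equiv (bbE n) f

/-- A sequence of classes of functions of modulus at most one, closed under multiplicative
derivatives. -/
structure Chain (𝒢 : ℕ → ∀ n : ℕ, Set ((Fin n → Bool) → ℂ)) : Prop where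
  norm : ∀ i n g, g ∈ 𝒢 i n → ∀ x, ‖g x‖ ≤ 1
  step : ∀ i n g, g ∈ 𝒢 i n → ∀ s t : Fin n → Bool,
    (fun x => g (xr x s) * (starRingEnd ℂ) (g (xr x t))) ∈ 𝒢 (i + 1) n

/-- There is an explicit generator with logarithmic seeds which fools `𝒯 n` for all large `n`. -/
def Fooled (𝒯 : ∀ n : ℕ, Set ((Fin n → Bool) → ℂ)) (ε : ℝ) : Prop :=
  ∃ E G, NG E G ∧ ∃ n₀ : ℕ, ∀ n ≥ n₀, ∀ f ∈ 𝒯 n,
    ‖na (2 ^ E n) (fun p => f (out G n p)) - av f‖ ≤ ε

theorem na_eq_av (M : ℕ) (F : ℕ → ℂ) : na M F = av (fun s : Fin M => F s) := by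
  unfold na av
  rw [Fintype.card_fin, Finset.sum_range]

theorem av_prod_eq {A B : Type*} [Fintype A] [Fintype B] (F : A → B → ℂ) :
    av (fun p : A × B => F p.1 p.2) = av (fun s => av (fun s' => F s s')) := by
  unfold av
  rw [Fintype.card_prod, Nat.cast_mul, ← Finset.sum_div, div_div, mul_comm (Fintype.card B : ℂ),
    ← Finset.univ_product_univ, Finset.sum_product]

/-- The small-bias generator. -/
theorem bias_ng {δ : ℝ} (hδ : 0 < δ) : ∃ E G, NG E G ∧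
    ∀ n, Biased (fun s : Fin (2 ^ E n) => aa (out G n s)) δ := by
  have key : ∀ n, ∀ f ∈ (fun n => {f : (Fin n → Bool) → ℂ | ∃ χ : AddChar (Hn n) ℂ, χ ≠ 1 ∧
      f = fun x => χ (aa x)}) n,
      (fun x : Hn n => f (fun i => decide (x i = 1))) ∈ chCls (ZMod 2) n ∧
        ‖av (fun x : Hn n => f (fun i => decide (x i = 1))) - av f‖ ≤ 0 := by
    rintro n f ⟨χ, hχ, rfl⟩
    have h3 : (fun z : Hn n => χ (aa fun i => decide (z i = 1))) = fun z => χ z := by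
      funext z
      exact congrArg χ (aa_bb z)
    refine ⟨⟨χ, hχ, h3⟩, ?_⟩
    have h4 : av (fun z : Hn n => χ (aa fun i => decide (z i = 1))) =
        av (fun x : Fin n → Bool => χ (aa x)) := av_bb fun x => χ (aa x)
    rw [h4, sub_self, norm_zero]
  obtain ⟨E, G, hG, H⟩ := exists_ng (gen_map (Z := ZMod 2) (Z' := Bool) (e := Equiv.refl (Fin 2))
    finTwoEquiv (fun z : ZMod 2 => decide (z = 1)) (small_bias (Z := ZMod 2) (Equiv.refl (Fin 2)) hδ) key)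
  refine ⟨E, G, hG, fun n χ hχ => ?_⟩
  have h1 := H n (fun x => χ (aa x)) ⟨χ, hχ, rfl⟩
  have h2 : av (fun x : Fin n → Bool => χ (aa x)) = 0 := by
    rw [← av_bb]
    simp only [aa_bb]
    unfold av
    rw [AddChar.sum_eq_zero_of_ne_one hχ, zero_div]
  rw [h2, sub_zero, add_zero, na_eq_av] at h1
  exact h1

/-- The classes of the induction. -/
def Kls (a : ℕ) [NeZero (2 ^ a)] (𝒢 : ℕ → ∀ n : ℕ, Set ((Fin n → Bool) → ℂ)) (j i n : ℕ) :
    Set (Hn n → ℂ) :=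
  {f | ∃ A : Hn n → ZMod (2 ^ a), (∀ l : List (Hn n × Hn n), l.length = j → iader l A = 0) ∧
    ∃ g ∈ 𝒢 i n, f = fun z => ph (2 ^ a) (A z) * g (bb z)}

theorem kls_norm {a : ℕ} [NeZero (2 ^ a)] {𝒢 : ℕ → ∀ n : ℕ, Set ((Fin n → Bool) → ℂ)}
    (hG : Chain 𝒢) {j i : ℕ} {f : Hn n → ℂ} (hf : f ∈ Kls a 𝒢 j i n) (z : Hn n) : ‖f z‖ ≤ 1 := by
  obtain ⟨A, _, g, hg, rfl⟩ := hf
  show ‖ph (2 ^ a) (A z) * g (bb z)‖ ≤ 1
  rw [norm_mul, norm_ph, one_mul]
  exact hG.norm i n g hg _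

theorem kls_step {a : ℕ} [NeZero (2 ^ a)] {𝒢 : ℕ → ∀ n : ℕ, Set ((Fin n → Bool) → ℂ)}
    (hG : Chain 𝒢) {j i : ℕ} {f : Hn n → ℂ} (hf : f ∈ Kls a 𝒢 (j + 1) i n) (s t : Hn n) :
    mder s t f ∈ Kls a 𝒢 j (i + 1) n := by
  obtain ⟨A, hA, g, hg, rfl⟩ := hf
  refine ⟨ader s t A, fun l hl => hA ((s, t) :: l) (by rw [List.length_cons, hl]),
    _, hG.step i n g hg (bb s) (bb t), ?_⟩
  funext z
  show ph (2 ^ a) (A (z + s)) * g (bb (z + s)) *
      (starRingEnd ℂ) (ph (2 ^ a) (A (z + t)) * g (bb (z + t))) =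
    ph (2 ^ a) (A (z + s) - A (z + t)) * (g (xr (bb z) (bb s)) * (starRingEnd ℂ) (g (xr (bb z) (bb t))))
  rw [ph_sub, map_mul, bb_add, bb_add]
  ring

theorem kls_main {a : ℕ} [NeZero (2 ^ a)] {𝒢 : ℕ → ∀ n : ℕ, Set ((Fin n → Bool) → ℂ)}
    (hG : Chain 𝒢) (h : ∀ i (ε : ℝ), 0 < ε → Fooled (𝒢 i) ε) (j : ℕ) :
    ∀ (i : ℕ) (ε : ℝ), 0 < ε → ∃ E G, NG E G ∧ ∃ n₀ : ℕ, ∀ n ≥ n₀, ∀ f ∈ Kls a 𝒢 j i n,
      ‖na (2 ^ E n) (fun p => f (aa (out G n p))) - av f‖ ≤ ε := by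
  induction j with
  | zero =>
    intro i ε hε
    obtain ⟨E, G, hNG, n₀, H⟩ := h i ε hε
    refine ⟨E, G, hNG, n₀, ?_⟩
    rintro n hn f ⟨A, hA, g, hg, rfl⟩
    have h1 : A = 0 := hA [] rfl
    subst h1
    have h2 : (fun z : Hn n => ph (2 ^ a) ((0 : Hn n → ZMod (2 ^ a)) z) * g (bb z)) =
        fun z => g (bb z) := by
      funext z
      rw [Pi.zero_apply, ph_zero, one_mul]
    rw [h2, av_bb]
    have h3 : (fun p => g (bb (aa (out G n p)))) = fun p => g (out G n p) := by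
      funext p
      rw [bb_aa]
    rw [h3]
    exact H n hn g hg
  | succ j ih =>
    intro i ε hε
    have hs : √((ε / 6) ^ 2) = ε / 6 := Real.sqrt_sq (by positivity)
    obtain ⟨E₁, G₁, h₁, n₀, H₁⟩ := ih (i + 1) ((ε / 6) ^ 2) (by positivity)
    obtain ⟨E₂, G₂, h₂, H₂⟩ := bias_ng (δ := ε / 2) (by positivity)
    refine ⟨_, _, h₁.xor h₂, n₀, fun n hn f hf => ?_⟩
    have hN1 : Nonempty (Fin (2 ^ E₁ n)) := ⟨⟨0, by positivity⟩⟩
    have hN2 : Nonempty (Fin (2 ^ E₂ n)) := ⟨⟨0, by positivity⟩⟩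
    have h3 := viola (D := fun s : Fin (2 ^ E₁ n) => aa (out G₁ n s))
      (E := fun s : Fin (2 ^ E₂ n) => aa (out G₂ n s)) (ε' := (ε / 6) ^ 2) (ε₀ := ε / 2)
      (by positivity) (by positivity) (H₂ n) (kls_norm hG hf) (fun s t => by
        have h4 := H₁ n hn _ (kls_step hG hf s t)
        rw [na_eq_av] at h4
        exact h4)
    rw [hs] at h3
    have h5 : 3 * (ε / 6) + ε / 2 = ε := by ring
    rw [h5] at h3
    unfold FoolsF at h3
    refine le_trans (le_of_eq ?_) h3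
    congr 2
    have hB : 0 < 2 ^ E₂ n := by positivity
    have h6 : na (2 ^ (E₁ n + E₂ n)) (fun p => f (aa (out (xorG E₂ G₁ G₂) n p))) =
        na (2 ^ E₁ n) (fun p => na (2 ^ E₂ n) fun p' =>
          f (aa (out G₁ n p) + aa (out G₂ n p'))) := by
      rw [pow_add, ← na_mul (2 ^ E₁ n) hB fun p p' => f (aa (out G₁ n p) + aa (out G₂ n p'))]
      refine na_congr fun p _ => ?_
      rw [← aa_xr]
      rfl
    rw [h6, na_eq_av]
    refine Eq.trans ?_ (av_prod_eq fun (s : Fin (2 ^ E₁ n)) (s' : Fin (2 ^ E₂ n)) =>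
      f (aa (out G₁ n s) + aa (out G₂ n s'))).symm
    congr 1
    funext s
    exact na_eq_av _ _

/-- The part of low degree is free. -/
theorem low_free {𝒢 : ℕ → ∀ n : ℕ, Set ((Fin n → Bool) → ℂ)}
    (hG : Chain 𝒢) (h : ∀ i (ε : ℝ), 0 < ε → Fooled (𝒢 i) ε) (i a d : ℕ) [NeZero (2 ^ a)]
    {ε : ℝ} (hε : 0 < ε) :
    Fooled (fun n => {f | ∃ A ∈ lowDeg (Fin n) Bool (ZMod (2 ^ a)) d, ∃ g ∈ 𝒢 i n,
      f = fun x => ph (2 ^ a) (A x) * g x}) ε := by
  obtain ⟨E, G, hNG, n₀, H⟩ := kls_main (a := a) hG h (Fintype.card (ZMod 2) ^ d * (2 * a)) i ε hε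
  refine ⟨E, G, hNG, n₀, ?_⟩
  rintro n hn f ⟨A, hA, g, hg, rfl⟩
  have h1 : (fun z : Hn n => ph (2 ^ a) (A (bb z)) * g (bb z)) ∈
      Kls a 𝒢 (Fintype.card (ZMod 2) ^ d * (2 * a)) i n := by
    refine ⟨fun z => A (bb z), fun l hl => ?_, g, hg, rfl⟩
    refine iader_lowDeg Nat.prime_two (by decide) ?_ l hl.ge
    exact lowDeg_comp (fun _ z => decide (z = 1)) hA
  have h2 := H n hn _ h1
  rw [av_bb fun x => ph (2 ^ a) (A x) * g x] at h2
  simp only [bb_aa] at h2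
  exact h2

end Pool.Agent.MP_ca1109_lc.Xv
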