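import Pool.Agent.MP_ca1109_lc.Xt.BP
import Pool.Agent.MP_ca1109_lc.Xv.LF
import Pool.Agent.MP_ca1109_lc.Xu.Test

/-!
# Characters of sums of conjunctions: phases of low degree and products of bounded read

* `vio a d n`: the phases of sums, modulo `2 ^ a`, of functions of at most `d` bits.
* `char_bp`: every character of a sum of conjunctions is a phase in `vio q d n` times a product of
  weights of order `q` of true terms.
-/

namespace Pool.Agent.MP_ca1109_lc.Xv

open Finset Pool.Agent.H66 Pool.Agent.MP_ca1109_lc.Mpg Pool.Agent.MP_ca1109_lc.Agp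
open Pool.Agent.MP_ca1109_lc.Dnf (Cube one Term)
open Pool.Agent.MP_ca1109_lc.Xl (Tr pr Rd)
open Pool.Agent.MP_ca1109_lc.Xt (BP FB BC rd_empty)

variable {n : ℕ}

/-- The phases of sums, modulo `2 ^ a`, of functions of at most `d` bits. -/
def vio (a d n : ℕ) : Submonoid (Cube n → ℂ) where
  carrier := {u | ∃ A ∈ lowDeg (Fin n) Bool (ZMod (2 ^ a)) d, u = fun x => ph (2 ^ a) (A x)}
  mul_mem' := by
    rintro u v ⟨A, hA, rfl⟩ ⟨A', hA', rfl⟩
    refine ⟨A + A', AddSubgroup.add_mem _ hA hA', ?_⟩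
    funext x
    show ph (2 ^ a) (A x) * ph (2 ^ a) (A' x) = ph (2 ^ a) (A x + A' x)
    rw [ph_add]
  one_mem' := by
    refine ⟨0, AddSubgroup.zero_mem _, ?_⟩
    funext x
    show (1 : ℂ) = ph (2 ^ a) 0
    rw [ph_zero]

private theorem xcb_sum {Γ ι : Type*} [AddCommGroup Γ] (χ : AddChar Γ ℂ) (s : Finset ι)
    (g : ι → Γ) : χ (∑ m ∈ s, g m) = ∏ m ∈ s, χ (g m) := by
  classical
  induction s using Finset.induction_on with
  | empty => rw [Finset.sum_empty, Finset.prod_empty, AddChar.map_zero_eq_one]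
  | insert a s ha ih => rw [Finset.sum_insert ha, Finset.prod_insert ha, AddChar.map_add_eq_mul, ih]

private theorem xcb_root {m : ℕ} [NeZero m] {z : ℂ} (hz : z ^ m = 1) :
    ∃ w : ZMod m, ph m w = z := by
  obtain ⟨i, hi, rfl⟩ := (Complex.isPrimitiveRoot_exp m (NeZero.ne m)).eq_pow_of_pow_eq_one hz
  refine ⟨(i : ZMod m), ?_⟩
  unfold ph
  have h1 := ZMod.stdAddChar_coe (N := m) (i : ℤ)
  rw [Int.cast_natCast] at h1
  rw [h1, ← Complex.exp_nat_mul]
  congr 1
  push_cast
  ring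

private theorem xcb_dep {Γ : Type*} [AddCommGroup Γ] {d : ℕ} (S : Finset (Fin n))
    (y : Fin n → Bool) (g : Γ) (hS : S.card ≤ d) :
    (fun x : Fin n → Bool => if ∀ i ∈ S, x i = y i then g else 0) ∈ lowDeg (Fin n) Bool Γ d := by
  refine AddSubgroup.subset_closure ⟨S, hS, fun x x' hx => ?_⟩
  have h1 : (∀ i ∈ S, x i = y i) ↔ ∀ i ∈ S, x' i = y i := by
    constructor
    · intro h i hi
      rw [← hx i hi]
      exact h i hi
    · intro h i hi
      rw [hx i hi]
      exact h i hi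
  simp only [h1]

/-- The sum of the values of the true conjunctions with at least one literal. -/
def lsn {Γ : Type*} [AddCommMonoid Γ] {N : ℕ} (S : Fin N → Finset (Fin n))
    (y : Fin N → Fin n → Bool) (c : Fin N → Γ) (x : Fin n → Bool) : Γ :=
  ∑ m ∈ univ.filter (fun m => S m ≠ ∅), if ∀ i ∈ S m, x i = y m i then c m else 0

theorem litSum_lsn {Γ : Type*} [AddCommMonoid Γ] {N : ℕ} (S : Fin N → Finset (Fin n))
    (y : Fin N → Fin n → Bool) (c : Fin N → Γ) :
    ∃ κ : Γ, ∀ x, Xu.litSum S y c x = κ + lsn S y c x := by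
  classical
  refine ⟨∑ m ∈ univ.filter (fun m => ¬ S m ≠ ∅), c m, fun x => ?_⟩
  unfold Xu.litSum lsn
  rw [← sum_filter_add_sum_filter_not univ (fun m => S m ≠ ∅), add_comm]
  congr 1
  refine sum_congr rfl fun m hm => ?_
  have h1 : S m = ∅ := by
    by_contra h
    exact (mem_filter.1 hm).2 h
  rw [if_pos]
  intro i hi
  rw [h1] at hi
  exact absurd hi (notMem_empty i)

/-- Every character of a sum of conjunctions is a phase of low degree times a product of weights of
order `q` of true terms. -/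
theorem char_bp {Γ : Type} [AddCommGroup Γ] (q d r : ℕ) {N : ℕ} (S : Fin N → Finset (Fin n))
    (y : Fin N → Fin n → Bool) (c : Fin N → Γ) (hq : ∀ g : Γ, q • g = 0)
    (hr : ∀ i, {m | i ∈ S m ∧ (d < (S m).card ∨ 2 ^ q • c m ≠ 0)}.ncard ≤ r)
    {V : ℝ} (hV : 0 ≤ V) (χ : AddChar Γ ℂ) :
    BP (vio q d n) r q V (fun x => χ (lsn S y c x)) := by
  classical
  have hroot : ∀ m, ∃ w : ZMod (2 ^ q), 2 ^ q • c m = 0 → ph (2 ^ q) w = χ (c m) := by
    intro m
    by_cases hm : 2 ^ q • c m = 0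
    · have h1 : χ (c m) ^ 2 ^ q = 1 := by
        rw [← AddChar.map_nsmul_eq_pow, hm, AddChar.map_zero_eq_one]
      obtain ⟨w, hw⟩ := xcb_root h1
      exact ⟨w, fun _ => hw⟩
    · exact ⟨0, fun h => absurd h hm⟩
  choose w hw using hroot
  set P : Fin N → Prop := fun m => (S m).card ≤ d ∧ 2 ^ q • c m = 0 with hP
  set M₀ : Finset (Fin N) := univ.filter fun m => S m ≠ ∅ with hM₀
  set A : (Fin n → Bool) → ZMod (2 ^ q) :=
    ∑ m ∈ M₀.filter P, fun x : Fin n → Bool => if ∀ i ∈ S m, x i = y m i then w m else 0 with hA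
  refine ⟨fun x => ph (2 ^ q) (A x), ⟨A, ?_, rfl⟩, Fin N, Empty, inferInstance, inferInstance,
    fun m => ⟨S m, y m⟩, M₀.filter (fun m => ¬ P m), fun m => χ (c m), Empty.elim, ∅, Empty.elim,
    ?_, ?_, ?_, rd_empty _ _, fun m => m.elim, fun m => m.elim, ?_, fun x => ?_⟩
  · refine AddSubgroup.sum_mem _ fun m hm => ?_
    exact xcb_dep (S m) (y m) (w m) (mem_filter.1 hm).2.1
  · intro i
    refine le_trans ?_ (hr i)
    rw [← Set.ncard_coe_finset]
    refine Set.ncard_le_ncard ?_ (Set.toFinite _)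
    intro m hm
    have hm' := mem_filter.1 (Finset.mem_coe.1 hm)
    have hm2 := mem_filter.1 hm'.1
    refine ⟨hm'.2, ?_⟩
    by_contra h3
    push Not at h3
    exact hm2.2 h3
  · intro m hm
    exact (mem_filter.1 (mem_filter.1 hm).1).2
  · intro m _
    rw [← AddChar.map_nsmul_eq_pow, hq, AddChar.map_zero_eq_one]
  · rw [sum_empty]
    exact hV
  · show χ (lsn S y c x) = ph (2 ^ q) (A x) * _
    rw [Xt.pr_empty Empty.elim Empty.elim x, mul_one]
    unfold lsn
    rw [xcb_sum, ← hM₀, ← prod_filter_mul_prod_filter_not M₀ P]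
    congr 1
    · rw [hA, Finset.sum_apply, ph_sum]
      refine prod_congr rfl fun m hm => ?_
      have hm' := (mem_filter.1 hm).2.2
      split_ifs
      · exact (hw m hm').symm
      · rw [AddChar.map_zero_eq_one, ph_zero]
    · unfold pr
      refine prod_congr rfl fun m hm => ?_
      by_cases h2 : ∀ i ∈ S m, x i = y m i
      · rw [if_pos h2, if_pos (show Tr (S m) (y m) x from h2)]
      · rw [if_neg h2, if_neg (show ¬ Tr (S m) (y m) x from h2), AddChar.map_zero_eq_one]

end Pool.Agent.MP_ca1109_lc.Xv
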