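import Pool.Agent.MP_ca1109_lc.Xa.FU
import Pool.Agent.MP_ca1109_lc.Xv.GP
import Pool.Agent.MP_ca1109_lc.Xv.CB

/-!
# Boolean functions of modular gates and threshold gates over conjunctions: the theorem

In the modular gates the conjunctions of at most `d` literals with coefficients of order dividing a
fixed power of two are free.
-/

namespace Pool.Agent.MP_ca1109_lc.Xv

open Finset Pool.Agent.H66 Pool.Agent.MP_ca1109_lc.Mpg Pool.Agent.MP_ca1109_lc.Agp
open Pool.Agent.MP_ca1109_lc.Dnf (Cube one Term)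
open Pool.Agent.MP_ca1109_lc.Xl (Tr pr Rd wb)
open Pool.Agent.MP_ca1109_lc.Xp (xo)
open Pool.Agent.MP_ca1109_lc.Xt (BP rd_sub)
open Pool.Agent.MP_ca1109_lc.Xg (hx)
open Pool.Agent.MP_ca1109_lc.Pb (tt)
open Pool.Agent.MP_ca1109_lc.Xa (Gt FP PB final_gt fp_eventually fu_card fu_gate lt fu_rd fu_st fu_rst)
open Pool.Agent.MP_ca1109_lc.Xu (Gate GateTest)

variable {n : ℕ}

/-- The generator fools all products. -/
theorem fv_gen (a d r q : ℕ) (K V : ℝ) {ε : ℝ} (hq : 0 < q) (hε : 0 < ε) : ∃ E G, NG E G ∧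
    ∃ n₀ : ℕ, ∀ n ≥ n₀, FP (vio a d n) r q K V ε (fun p : Fin (2 ^ E n) => out G n p) := by
  classical
  obtain ⟨E, G, hNG, n₀, HG⟩ := main_gp r q 2 a d hq K V hε
  refine ⟨E, G, hNG, max n₀ r, fun n hn f hf => ?_⟩
  have hn0 : n₀ ≤ n := (le_max_left _ _).trans hn
  have hnr : r ≤ n := (le_max_right _ _).trans hn
  have hcard : ∀ {ι : Type} {T : ι → Term n} {M : Finset ι}, Rd r T M →
      (∀ m ∈ M, (T m).S ≠ ∅) → M.card ≤ n ^ 2 := by
    intro ι T M hM h0
    refine (fu_card hM h0).trans ?_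
    rw [pow_two]
    exact Nat.mul_le_mul_left _ hnr
  obtain ⟨u, hu, ι, i1, T, M, ζ, g, h1, h2, h3, h4, h5⟩ := hf
  obtain ⟨A, hA, hu1⟩ := hu
  obtain ⟨κ, i2, T', z, J, ψ, k1, k2, k3, k4, k5, k6, k7⟩ := h4
  have hT' : Rd r T' (univ : Finset κ) := k2
  have hJ : Rd r T' J := rd_sub hT' (subset_univ _)
  have hne : ∀ m, (T' m).S ≠ ∅ := fun m => nonempty_iff_ne_empty.1 (k1 m)
  have key := HG n hn0 A hA T M ζ T' univ z T' J ψ (rd_sub h1 (filter_subset _ _)) (hcard h1 h2) h3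
    (rd_sub hT' (filter_subset _ _)) (hcard hT' fun m _ => hne m) (fun m _ => k3 m) k5
    (rd_sub hJ (filter_subset _ _)) (hcard hJ fun m _ => hne m) k6 k4
  have e : ∀ x, f x = ph (2 ^ a) (A x) * (pr T ζ M x * (ψ (hx J T' x) * pr T' z univ x)) := by
    intro x
    rw [h5, hu1, k7]
    rfl
  rw [← av_fin (2 ^ E n)] at key
  simp only [← e] at key
  exact key

/-- The gates of the class are gates in the sense of `Gt`. -/
theorem fv_gate {q d r B : ℕ} {g : Cube n → Bool} (hg : Xu.Gate q d r B g) :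
    Gt (vio q d n) r q B g := by
  classical
  obtain ⟨N, S, y, hg⟩ := hg
  rcases hg with ⟨G, i1, i2, c, A, hq, hA, hr, hgx⟩ | ⟨w, θ, hw, hr, hgx⟩ | ⟨w, θ, s, hs, hr, hgx⟩
  · have i3 : Fintype G := Fintype.ofFinite G
    obtain ⟨κ, hκ⟩ := litSum_lsn S y c
    refine Or.inl ⟨G, i1, i3, lsn S y c, A.image fun a => a - κ, card_image_le.trans hA,
      fun χ => char_bp q d r S y c hq hr le_rfl χ, fun x => ?_⟩
    rw [hgx, hκ, mem_image]
    constructor
    · intro h
      exact ⟨_, h, by abel⟩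
    · rintro ⟨a, ha, he⟩
      rw [← he, add_sub_cancel]
      exact ha
  · refine Or.inr (Or.inl ⟨Fin N, inferInstance, lt S y, univ, w, θ, ?_, fun m _ => hw m,
      fun x => ?_⟩)
    · exact fu_rd (P := fun _ => True) (by simpa using hr) _ fun _ _ _ _ => trivial
    · rw [hgx, fu_st]
  · refine Or.inr (Or.inr ⟨univ.image S,
      fun A => ∑ j ∈ univ.filter (fun j => S j = A), w j, θ, fun i => !(s i), fun i => ?_, fun x => ?_⟩)
    · refine le_trans ?_ (hr i)
      have h1 : ((univ.image S).filter fun m => i ∈ m) ⊆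
          (univ.filter fun j => i ∈ S j).image S := by
        intro m hm
        rw [mem_filter, mem_image] at hm
        obtain ⟨⟨j, _, rfl⟩, hi⟩ := hm
        exact mem_image_of_mem S (mem_filter.2 ⟨mem_univ j, hi⟩)
      refine (card_le_card h1).trans (card_image_le.trans (le_of_eq ?_))
      rw [← Set.ncard_coe_finset]
      congr 1
      ext m
      simp
    · rw [hgx, fu_rst S y w s hs]

/-- The theorem. -/
theorem final_all (q d r B k : ℕ) (hq : 0 < q) {ε : ℝ} (hε : 0 < ε) :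
    LogGen (GateTest q d r B k) ε := by
  have h := final_gt (fun n => vio q d n) r q B k hq
    (fun r q' K V _ hq' hε => fv_gen q d r q' K V hq' hε) hε
  refine fp_eventually h 0 fun n _ f hf => ?_
  obtain ⟨g, F, hg, hf⟩ := hf
  exact ⟨g, F, fun j => fv_gate (hg j), hf⟩

end Pool.Agent.MP_ca1109_lc.Xv
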